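import Mathlib
import Pool.Agent.Lib.MP_7ef860_gt.Main

/-!
# `MP_7ef860_gt`, Q1: bundles over `BSU(2)` twisted by unstable Adams maps are not kinetic

Let `W` be a closed connected smooth manifold (model `I` without boundary, any dimension) with a
non-trivial action `s` of `SU(2)` by smooth diffeomorphisms, let `k > 1` be odd and let `ψ` be an
unstable Adams map of degree `k`, i.e. a self-map of `BSU(2)` whose restriction to `BT` is homotopic
to the map induced by `z ↦ z ^ k`.  Then the pullback along `ψ` of the bundle
`ESU(2) ×_{SU(2)} W → BSU(2)` is not isomorphic, as a smooth bundle, to the bundle induced by any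
action of `SU(2)` on `W` by smooth diffeomorphisms.

Idea of the proof.  An isomorphism is a family `F (x, x')` of diffeomorphisms of `W`, indexed by the
pairs of frames, with `F (A x, B x') ∘ s' A = s B ∘ F (x, x')`.  Let `p` be an odd prime dividing `k`
and `ζ ^ p = 1`.  Restricting to `ET` and lifting the homotopy, one gets over large compact free
`ℤ/p`-spaces `X` families `G` of diffeomorphisms with `G (ζ x) = s' (diag (ζ, ζ⁻¹)) ∘ G x`.  The
Borsuk-Ulam theorem for `ℤ/p`, applied to the values and derivatives at one point of the translates of
`G x` (in a Whitney embedding of `W`), gives a fixed point of `s' (diag (ζ, ζ⁻¹))` at which its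
derivative is the identity.  So `s' (diag (ζ, ζ⁻¹))` is the identity, and `s'` is trivial, as every
normal subgroup of `SU(2)` which contains a non-central element is everything.  Now the same
argument with a prime not dividing `2 k` shows that `s` is trivial.
-/

open scoped Manifold ContDiff Topology

namespace Pool.Agent.Results.MP_7ef860_gt.NonKinetic

open Pool.Agent.Lib.MP_7ef860_gt

theorem result {V : Type} [NormedAddCommGroup V] [NormedSpace ℝ V] [FiniteDimensional ℝ V]
    {H : Type} [TopologicalSpace H] {I : ModelWithCorners ℝ V H} [I.Boundaryless]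
    {W : Type} [TopologicalSpace W] [ChartedSpace H W] [IsManifold I ∞ W]
    [T2Space W] [CompactSpace W] [ConnectedSpace W]
    (s : SmoothAction I W) (hs : ∃ g, s.act g ≠ id) (k : ℕ) (hk : Odd k) (hk1 : 1 < k)
    (ψ : C(BSU2, BSU2)) (hψ : IsUnstableAdams k ψ) :
    ¬ PullbackIsKinetic ψ s := by
  rintro ⟨s', ⟨Θ⟩⟩
  exact (not_kinetic s s' hs hk hk1 hψ).false Θ

end Pool.Agent.Results.MP_7ef860_gt.NonKinetic
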